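import Mathlib
import Pool.Agent.H.MP_c40d78_co.Main

set_option autoImplicit false

namespace Pool.Agent.Results.MP_70625d_co.Empty

open Metric Pool.Agent.H.MP_c40d78_co

/-- `σ` encodes a max-sum perfect matching of the points `p i`. -/
def MaxSum {d n : ℕ} (p : Fin (2 * n) → EuclideanSpace ℝ (Fin d)) (σ : Equiv.Perm (Fin (2 * n))) :
    Prop :=
  (∀ i, σ (σ i) = i) ∧ (∀ i, σ i ≠ i) ∧
    ∀ τ : Equiv.Perm (Fin (2 * n)), (∀ i, τ (τ i) = i) → (∀ i, τ i ≠ i) →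
      ∑ i, dist (p i) (p (τ i)) ≤ ∑ i, dist (p i) (p (σ i))

/-- the intersection of the closed balls induced by the pairs of the matching -/
def Common {d n : ℕ} (p : Fin (2 * n) → EuclideanSpace ℝ (Fin d)) (σ : Equiv.Perm (Fin (2 * n))) :
    Set (EuclideanSpace ℝ (Fin d)) :=
  ⋂ i, closedBall (midpoint ℝ (p i) (p (σ i))) (dist (p i) (p (σ i)) / 2)

lemma cball (x : EuclideanSpace ℝ (Fin 3)) (i j : Fin 6)
    (h : dist x (midpoint ℝ (pp i) (pp j)) ≤ dist (pp i) (pp j) / 2) :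
    (x 0 - cc i 0) * (x 0 - cc j 0) + (x 1 - cc i 1) * (x 1 - cc j 1) +
      (x 2 - cc i 2) * (x 2 - cc j 2) ≤ 0 := by
  have h1 := pow_le_pow_left₀ dist_nonneg h 2
  rw [div_pow, EuclideanSpace.dist_sq_eq, EuclideanSpace.dist_sq_eq] at h1
  simp [pp, Fin.sum_univ_three, Real.dist_eq, midpoint_eq_smul_add] at h1
  nlinarith

lemma empty : Common (n := 3) pp sg = ∅ := by
  refine Set.eq_empty_of_forall_notMem fun x hx => ?_
  have h := Set.mem_iInter.1 hx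
  have h0 := cball x 0 1 (h 0)
  have h1 := cball x 2 3 (h 2)
  have h2 := cball x 4 5 (h 4)
  simp [cc] at h0 h1 h2
  nlinarith [sq_nonneg (120 * x 0 - 82), sq_nonneg (120 * x 1 + 179), sq_nonneg (120 * x 2 + 9)]

theorem result :
    (∃ (p : Fin (2 * 3) → EuclideanSpace ℝ (Fin 3)) (σ : Equiv.Perm (Fin (2 * 3))),
      Function.Injective p ∧ MaxSum p σ ∧ Common p σ = ∅) ∧
    ¬ ∀ d : ℕ, 0 < d → ∃ ε : ℝ, 0 < ε ∧
      ∀ (n : ℕ) (p : Fin (2 * n) → EuclideanSpace ℝ (Fin d)) (σ : Equiv.Perm (Fin (2 * n))) (r : ℝ),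
        Function.Injective p → IsLeast {t | ∃ i j, i ≠ j ∧ t = dist (p i) (p j)} r → MaxSum p σ →
          ∃ z, ball z (ε * r) ⊆ Common p σ := by
  have hm : MaxSum (n := 3) pp sg := ⟨by decide, by decide, fun τ _ h => maxsum τ h⟩
  refine ⟨⟨pp, sg, inj, hm, empty⟩, fun h => ?_⟩
  obtain ⟨ε, hε, h⟩ := h 3 (by norm_num)
  have hfin : {t | ∃ i j : Fin (2 * 3), i ≠ j ∧ t = dist (pp i) (pp j)}.Finite :=
    (Set.finite_range fun q : Fin (2 * 3) × Fin (2 * 3) => dist (pp q.1) (pp q.2)).subset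
      (by rintro _ ⟨i, j, -, rfl⟩; exact ⟨(i, j), rfl⟩)
  obtain ⟨r, hr, hmin⟩ := Set.exists_min_image _ id hfin ⟨_, 0, 1, by decide, rfl⟩
  obtain ⟨z, hz⟩ := h 3 pp sg r inj ⟨hr, hmin⟩ hm
  obtain ⟨i, j, hij, rfl⟩ := hr
  have hp : 0 < dist (pp i) (pp j) := dist_pos.2 fun e => hij (inj e)
  have := hz (mem_ball_self (mul_pos hε hp))
  rw [empty] at this
  exact this

end Pool.Agent.Results.MP_70625d_co.Empty
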